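import Mathlib

/-!
# The minimum length of a `(2, n)`-shuffle is `2 n - 3`

Idea of the lower bound. Let `M x y` be the probability that counter 1 is in position `x` and
counter 2 in position `y`, and let `N = (row sums) (column sums)ᵀ - M` be the (negated) covariance
matrix of the two indicator vectors. With `u = e_a - e_b`, a lazy transposition `(a, b, p)` changes
`N` into `(1 - p u uᵀ) N (1 - p u uᵀ) + p (1 - p) (M a b + M b a) u uᵀ`. Hence the rank of `N` grows
by at most one, and only if both `a` and `b` are occupied simultaneously with positive probability;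
in that case the number of positions that are occupied with positive probability does not grow, and
otherwise this number grows by at most one. So `rank N + #(reachable positions)` grows by at most
one per step. It is `0 + 2` at the start and `(n - 1) + n` at the end.

The upper bound is the sweeping construction
`(2,3), ..., (n-1,n), (1,2), (2,3), ..., (n-1,n)`, where `(j, j+1)` is used with probability
`(n - j) / (n - j + 1)`.
-/

open scoped ENNReal NNReal
open Equiv Matrix

namespace Pool.Agent.Results.MP_3359ff_co.ExactTwo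

/-- The data of a lazy transposition `(a, b, p)` on the positions `Fin n`. -/
structure LazyTransposition (n : ℕ) where
  a : Fin n
  b : Fin n
  ne : a ≠ b
  p : ℝ≥0
  le_one : p ≤ 1

/-- The law of the random permutation `(a, b, p)`: it is the transposition `swap a b` with
probability `p` and the identity with probability `1 - p`. -/
noncomputable def LazyTransposition.law {n : ℕ} (T : LazyTransposition n) :
    PMF (Perm (Fin n)) :=
  (PMF.ofFintype (fun c : Bool => if c then (T.p : ℝ≥0∞) else 1 - (T.p : ℝ≥0∞))
    (by
      have h : (T.p : ℝ≥0∞) ≤ 1 := by exact_mod_cast T.le_one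
      simpa using add_tsub_cancel_of_le h)).map
    fun c => if c then swap T.a T.b else 1

/-- The law of the composition of independent lazy transpositions, applied in the order of the
list: the identity permutation is multiplied on the left by each of them in turn. -/
noncomputable def compositionLaw {n : ℕ} (L : List (LazyTransposition n)) :
    PMF (Perm (Fin n)) :=
  L.foldl (fun μ T => μ.bind fun π => T.law.map fun σ => σ * π) (PMF.pure 1)

/-- The positions of the `t` counters, counter `i` having started in position `i`, after their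
contents have been moved by the permutation `π`. -/
def positions {t n : ℕ} (h : t ≤ n) (π : Perm (Fin n)) : Fin t ↪ Fin n :=
  (Fin.castLEEmb h).trans π.toEmbedding

/-- A list of lazy transpositions is a `(t, n)`-shuffle if all `t! * (n choose t)` possible
outcomes for the positions of the `t` counters are equally likely. -/
def IsShuffle {t n : ℕ} (h : t ≤ n) (L : List (LazyTransposition n)) : Prop :=
  ∀ f : Fin t ↪ Fin n,
    ((compositionLaw L).map (positions h)) f = ((t.factorial * n.choose t : ℕ) : ℝ≥0∞)⁻¹

/-- The set of lengths of `(t, n)`-shuffles; `U_t(n)` is its least element. -/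
def shuffleLengths {t n : ℕ} (h : t ≤ n) : Set ℕ :=
  {l | ∃ L : List (LazyTransposition n), L.length = l ∧ IsShuffle h L}

/-! ### One step -/

variable {n : ℕ}

/-- the law after one more lazy transposition -/
noncomputable def stepLaw (μ : PMF (Perm (Fin n))) (T : LazyTransposition n) :
    PMF (Perm (Fin n)) :=
  μ.bind fun π => T.law.map fun σ => σ * π

theorem stepLaw_apply (μ : PMF (Perm (Fin n))) (T : LazyTransposition n) (π : Perm (Fin n)) :
    stepLaw μ T π = T.p * μ (swap T.a T.b * π) + (1 - T.p) * μ π := by
  unfold stepLaw LazyTransposition.law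
  rw [PMF.bind_apply, tsum_fintype]
  simp only [PMF.map_comp, PMF.map_apply, tsum_fintype, Fintype.sum_bool, PMF.ofFintype_apply,
    Function.comp]
  have h1 : ∀ x : Perm (Fin n), (π = swap T.a T.b * x) ↔ (x = swap T.a T.b * π) := by
    intro x
    constructor
    · rintro rfl; simp [← mul_assoc]
    · rintro rfl; simp [← mul_assoc]
  simp only [if_true, Bool.false_eq_true, if_false, one_mul, h1, mul_add, mul_ite, mul_zero,
    Finset.sum_add_distrib, Finset.sum_ite_eq', Finset.sum_ite_eq, Finset.mem_univ]
  rw [mul_comm, mul_comm (μ π)]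

theorem stepLaw_apply_toReal (μ : PMF (Perm (Fin n))) (T : LazyTransposition n)
    (π : Perm (Fin n)) :
    (stepLaw μ T π).toReal =
      (T.p : ℝ) * (μ (swap T.a T.b * π)).toReal + (1 - (T.p : ℝ)) * (μ π).toReal := by
  rw [stepLaw_apply]
  have h : (T.p : ℝ≥0∞) ≤ 1 := by exact_mod_cast T.le_one
  rw [ENNReal.toReal_add, ENNReal.toReal_mul, ENNReal.toReal_mul, ENNReal.toReal_sub_of_le h]
  · simp
  · simp
  · exact ENNReal.mul_ne_top (by simp) (PMF.apply_ne_top _ _)
  · exact ENNReal.mul_ne_top (by simp) (PMF.apply_ne_top _ _)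

/-- joint law of the images of `i` and `j` -/
noncomputable def J (i j : Fin n) (μ : PMF (Perm (Fin n))) : Matrix (Fin n) (Fin n) ℝ :=
  of fun x y => ∑ π : Perm (Fin n), if π i = x ∧ π j = y then (μ π).toReal else 0

theorem J_step (i j : Fin n) (μ : PMF (Perm (Fin n))) (T : LazyTransposition n) (x y : Fin n) :
    J i j (stepLaw μ T) x y =
      (T.p : ℝ) * J i j μ (swap T.a T.b x) (swap T.a T.b y) + (1 - (T.p : ℝ)) * J i j μ x y := by
  simp only [J, of_apply, stepLaw_apply_toReal]
  rw [Finset.mul_sum, Finset.mul_sum]
  have : ∑ π : Perm (Fin n), (T.p : ℝ) *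
        (if π i = swap T.a T.b x ∧ π j = swap T.a T.b y then (μ π).toReal else 0) =
      ∑ π : Perm (Fin n), (T.p : ℝ) *
        (if π i = x ∧ π j = y then (μ (swap T.a T.b * π)).toReal else 0) := by
    rw [← Equiv.sum_comp (Equiv.mulLeft (swap T.a T.b))]
    refine Finset.sum_congr rfl fun π _ => ?_
    simp
  rw [this, ← Finset.sum_add_distrib]
  refine Finset.sum_congr rfl fun π _ => ?_
  split_ifs <;> simp


theorem J_nonneg (i j : Fin n) (μ : PMF (Perm (Fin n))) (x y : Fin n) : 0 ≤ J i j μ x y := by
  simp only [J, of_apply]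
  refine Finset.sum_nonneg fun π _ => ?_
  split_ifs <;> simp

theorem J_diag {i j : Fin n} (hij : i ≠ j) (μ : PMF (Perm (Fin n))) (x : Fin n) :
    J i j μ x x = 0 := by
  simp only [J, of_apply]
  refine Finset.sum_eq_zero fun π _ => ?_
  rw [if_neg]
  rintro ⟨h1, h2⟩
  exact hij (π.injective (h1.trans h2.symm))

/-! ### The potential function -/

/-- row sums -/
noncomputable def rs (M : Matrix (Fin n) (Fin n) ℝ) (x : Fin n) : ℝ := ∑ y, M x y
/-- column sums -/
noncomputable def cs (M : Matrix (Fin n) (Fin n) ℝ) (y : Fin n) : ℝ := ∑ x, M x y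

/-- the product of the marginals minus the joint law -/
noncomputable def cov (M : Matrix (Fin n) (Fin n) ℝ) : Matrix (Fin n) (Fin n) ℝ :=
  of fun x y => rs M x * cs M y - M x y

/-- the positions occupied with positive probability -/
noncomputable def sup (M : Matrix (Fin n) (Fin n) ℝ) : Finset (Fin n) :=
  Finset.univ.filter fun x => rs M x ≠ 0 ∨ cs M x ≠ 0

/-- the effect of a lazy transposition on the joint law -/
noncomputable def stepM (a b : Fin n) (p : ℝ) (M : Matrix (Fin n) (Fin n) ℝ) :
    Matrix (Fin n) (Fin n) ℝ :=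
  of fun x y => p * M (swap a b x) (swap a b y) + (1 - p) * M x y

theorem rs_stepM (a b : Fin n) (p : ℝ) (M : Matrix (Fin n) (Fin n) ℝ) (x : Fin n) :
    rs (stepM a b p M) x = p * rs M (swap a b x) + (1 - p) * rs M x := by
  simp only [rs, stepM, of_apply, Finset.sum_add_distrib, ← Finset.mul_sum]
  congr 2
  exact Equiv.sum_comp (swap a b) (fun y => M (swap a b x) y)

theorem cs_stepM (a b : Fin n) (p : ℝ) (M : Matrix (Fin n) (Fin n) ℝ) (x : Fin n) :
    cs (stepM a b p M) x = p * cs M (swap a b x) + (1 - p) * cs M x := by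
  simp only [cs, stepM, of_apply, Finset.sum_add_distrib, ← Finset.mul_sum]
  congr 2
  exact Equiv.sum_comp (swap a b) (fun y => M y (swap a b x))

/-- the vector `e_a - e_b` -/
noncomputable def uv (a b : Fin n) : Fin n → ℝ := Pi.single a 1 - Pi.single b 1

theorem sandwich_apply (a b : Fin n) (p : ℝ) (N : Matrix (Fin n) (Fin n) ℝ) (x y : Fin n) :
    ((1 - p • vecMulVec (uv a b) (uv a b)) * N * (1 - p • vecMulVec (uv a b) (uv a b))) x y =
      N x y - p * uv a b x * (N a y - N b y) - p * (N x a - N x b) * uv a b y
        + p ^ 2 * uv a b x * uv a b y * (N a a - N a b - N b a + N b b) := by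
  have e1 : ∀ (K : Matrix (Fin n) (Fin n) ℝ) (x : Fin n),
      (K *ᵥ uv a b) x = K x a - K x b := by
    intro K x
    simp [uv, Matrix.mulVec_sub]
  have e2 : ∀ (K : Matrix (Fin n) (Fin n) ℝ) (x : Fin n),
      (uv a b ᵥ* K) x = K a x - K b x := by
    intro K x
    simp [uv, Matrix.sub_vecMul]
  rw [mul_sub, mul_one, sub_mul, one_mul, Matrix.mul_smul, Matrix.sub_mul, Matrix.smul_mul,
    Matrix.smul_mul, Matrix.vecMulVec_mul, Matrix.mul_vecMulVec, Matrix.mul_vecMulVec,
    ]
  simp only [Matrix.sub_apply, Matrix.smul_apply, smul_eq_mul, vecMulVec_apply, e1, e2]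
  ring

theorem cov_stepM {a b : Fin n} (hab : a ≠ b) (p : ℝ) (M : Matrix (Fin n) (Fin n) ℝ) :
    cov (stepM a b p M) =
      (1 - p • vecMulVec (uv a b) (uv a b)) * cov M * (1 - p • vecMulVec (uv a b) (uv a b))
        + vecMulVec ((p * (1 - p) * (M a b + M b a - M a a - M b b)) • uv a b) (uv a b) := by
  ext x y
  rw [Matrix.add_apply, sandwich_apply]
  simp only [cov, of_apply, rs_stepM, cs_stepM, vecMulVec_apply, Pi.smul_apply, smul_eq_mul]
  simp only [stepM, of_apply]
  by_cases hxa : x = a
  · subst hxa
    by_cases hyx : y = x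
    · subst hyx
      simp [uv, hab, hab.symm]
      ring
    · by_cases hyb : y = b
      · subst hyb
        simp [uv, hab, hab.symm]
        ring
      · simp [uv, hab, hab.symm, hyx, hyb, swap_apply_of_ne_of_ne]
        ring
  · by_cases hxb : x = b
    · subst hxb
      by_cases hyx : y = x
      · subst hyx
        simp [uv, hab, hab.symm]
        ring
      · by_cases hyb : y = a
        · subst hyb
          simp [uv, hab, hab.symm]
          ring
        · simp [uv, hab, hab.symm, hyx, hyb, swap_apply_of_ne_of_ne]
          ring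
    · by_cases hya : y = a
      · subst hya
        simp [uv, hab, hab.symm, hxa, hxb, swap_apply_of_ne_of_ne]
        ring
      · by_cases hyb : y = b
        · subst hyb
          simp [uv, hab, hab.symm, hxa, hxb, swap_apply_of_ne_of_ne]
          ring
        · simp [uv, hxa, hxb, hya, hyb, swap_apply_of_ne_of_ne]
          ring

theorem rank_add_le' {m : ℕ} (A B : Matrix (Fin m) (Fin m) ℝ) :
    (A + B).rank ≤ A.rank + B.rank := by
  unfold Matrix.rank
  have h : LinearMap.range (A + B).mulVecLin ≤
      LinearMap.range A.mulVecLin ⊔ LinearMap.range B.mulVecLin := by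
    rintro _ ⟨v, rfl⟩
    rw [Matrix.mulVecLin_apply, Matrix.add_mulVec]
    exact Submodule.add_mem_sup ⟨v, rfl⟩ ⟨v, rfl⟩
  exact (Submodule.finrank_mono h).trans (Submodule.finrank_add_le_finrank_add_finrank _ _)

theorem sup_stepM_subset (a b : Fin n) (p : ℝ) (M : Matrix (Fin n) (Fin n) ℝ) (x : Fin n)
    (hx : x ∈ sup (stepM a b p M)) : x ∈ sup M ∨ x = a ∨ x = b := by
  by_cases hxa : x = a
  · exact Or.inr (Or.inl hxa)
  by_cases hxb : x = b
  · exact Or.inr (Or.inr hxb)
  left
  simp only [sup, Finset.mem_filter, Finset.mem_univ, true_and, rs_stepM, cs_stepM] at hx ⊢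
  rw [swap_apply_of_ne_of_ne hxa hxb] at hx
  have e : ∀ t : ℝ, p * t + (1 - p) * t = t := by intro t; ring
  rwa [e, e] at hx

theorem potential_step {a b : Fin n} (hab : a ≠ b) (p : ℝ) (M : Matrix (Fin n) (Fin n) ℝ)
    (h0 : ∀ x y, 0 ≤ M x y) (hd : ∀ x, M x x = 0) :
    (cov (stepM a b p M)).rank + (sup (stepM a b p M)).card ≤
      (cov M).rank + (sup M).card + 1 := by
  classical
  have hrank : ((1 - p • vecMulVec (uv a b) (uv a b)) * cov M *
      (1 - p • vecMulVec (uv a b) (uv a b))).rank ≤ (cov M).rank :=
    (Matrix.rank_mul_le_left _ _).trans (Matrix.rank_mul_le_right _ _)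
  by_cases hw : M a b + M b a = 0
  · have h1 : (cov (stepM a b p M)).rank ≤ (cov M).rank := by
      rw [cov_stepM hab, hw, hd, hd]
      simpa using hrank
    have h2 : (sup (stepM a b p M)).card ≤ (sup M).card + 1 := by
      by_cases ha : a ∈ sup M
      · have : sup (stepM a b p M) ⊆ insert b (sup M) := by
          intro x hx
          rcases sup_stepM_subset a b p M x hx with h | h | h
          · exact Finset.mem_insert_of_mem h
          · subst h; exact Finset.mem_insert_of_mem ha
          · subst h; exact Finset.mem_insert_self _ _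
        exact (Finset.card_le_card this).trans (Finset.card_insert_le _ _)
      · by_cases hb : b ∈ sup M
        · have : sup (stepM a b p M) ⊆ insert a (sup M) := by
            intro x hx
            rcases sup_stepM_subset a b p M x hx with h | h | h
            · exact Finset.mem_insert_of_mem h
            · subst h; exact Finset.mem_insert_self _ _
            · subst h; exact Finset.mem_insert_of_mem hb
          exact (Finset.card_le_card this).trans (Finset.card_insert_le _ _)
        · have : sup (stepM a b p M) ⊆ sup M := by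
            intro x hx
            rcases sup_stepM_subset a b p M x hx with h | h | h
            · exact h
            · subst h
              simp only [sup, Finset.mem_filter, Finset.mem_univ, true_and, not_or, not_not]
                at ha hb hx
              simp [rs_stepM, cs_stepM, ha.1, ha.2, hb.1, hb.2] at hx
            · subst h
              simp only [sup, Finset.mem_filter, Finset.mem_univ, true_and, not_or, not_not]
                at ha hb hx
              simp [rs_stepM, cs_stepM, ha.1, ha.2, hb.1, hb.2] at hx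
          exact (Finset.card_le_card this).trans (Nat.le_succ _)
    omega
  · have h1 : (cov (stepM a b p M)).rank ≤ (cov M).rank + 1 := by
      rw [cov_stepM hab]
      exact (rank_add_le' _ _).trans (Nat.add_le_add hrank (Matrix.rank_vecMulVec_le _ _))
    have hpos : 0 < M a b ∨ 0 < M b a := by
      by_contra hcon
      push Not at hcon
      exact hw (le_antisymm (by linarith [hcon.1, hcon.2]) (by linarith [h0 a b, h0 b a]))
    have hr : ∀ x y, 0 < M x y → rs M x ≠ 0 := fun x y h =>
      (lt_of_lt_of_le h (Finset.single_le_sum (f := fun y => M x y) (fun i _ => h0 x i)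
        (Finset.mem_univ y))).ne'
    have hc : ∀ x y, 0 < M x y → cs M y ≠ 0 := fun x y h =>
      (lt_of_lt_of_le h (Finset.single_le_sum (f := fun x => M x y) (fun i _ => h0 i y)
        (Finset.mem_univ x))).ne'
    have ha : a ∈ sup M := by
      simp only [sup, Finset.mem_filter, Finset.mem_univ, true_and]
      rcases hpos with h | h
      · exact Or.inl (hr _ _ h)
      · exact Or.inr (hc _ _ h)
    have hb : b ∈ sup M := by
      simp only [sup, Finset.mem_filter, Finset.mem_univ, true_and]
      rcases hpos with h | h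
      · exact Or.inr (hc _ _ h)
      · exact Or.inl (hr _ _ h)
    have h2 : sup (stepM a b p M) ⊆ sup M := by
      intro x hx
      rcases sup_stepM_subset a b p M x hx with h | h | h
      · exact h
      · subst h; exact ha
      · subst h; exact hb
    have h3 := Finset.card_le_card h2
    omega

theorem J_step' (i j : Fin n) (μ : PMF (Perm (Fin n))) (T : LazyTransposition n) :
    J i j (stepLaw μ T) = stepM T.a T.b T.p (J i j μ) := by
  ext x y
  rw [J_step]
  rfl

theorem potential_foldl {i j : Fin n} (hij : i ≠ j) (L : List (LazyTransposition n)) :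
    ∀ μ : PMF (Perm (Fin n)),
      (cov (J i j (L.foldl stepLaw μ))).rank + (sup (J i j (L.foldl stepLaw μ))).card ≤
        (cov (J i j μ)).rank + (sup (J i j μ)).card + L.length := by
  induction L with
  | nil => intro μ; simp
  | cons T L ih =>
    intro μ
    rw [List.foldl_cons, List.length_cons]
    have h1 := ih (stepLaw μ T)
    have h2 := potential_step T.ne T.p (J i j μ) (J_nonneg i j μ) (J_diag hij μ)
    rw [← J_step'] at h2
    omega

theorem J_pure (i j : Fin n) (x y : Fin n) :
    J i j (PMF.pure 1) x y = if x = i ∧ y = j then 1 else 0 := by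
  classical
  simp only [J, of_apply, PMF.pure_apply]
  rw [Finset.sum_eq_single (1 : Perm (Fin n))]
  · simp [eq_comm]
  · intro π _ hπ
    simp [hπ]
  · simp

theorem cov_pure (i j : Fin n) : cov (J i j (PMF.pure 1)) = 0 := by
  ext x y
  simp only [cov, of_apply, rs, cs, J_pure, Matrix.zero_apply]
  by_cases hx : x = i <;> by_cases hy : y = j <;> simp [hx, hy]

theorem sup_pure (i j : Fin n) : (sup (J i j (PMF.pure 1))).card ≤ 2 := by
  classical
  have : sup (J i j (PMF.pure 1)) ⊆ {i, j} := by
    intro x hx
    simp only [sup, Finset.mem_filter, Finset.mem_univ, true_and, rs, cs, J_pure] at hx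
    by_contra hcon
    simp only [Finset.mem_insert, Finset.mem_singleton, not_or] at hcon
    simp [hcon.1, hcon.2] at hx
  exact (Finset.card_le_card this).trans Finset.card_le_two


/-! ### Outcomes of two counters and the joint law -/

theorem compositionLaw_eq (L : List (LazyTransposition n)) :
    compositionLaw L = L.foldl stepLaw (PMF.pure 1) := rfl

theorem map_positions_toReal (h : 2 ≤ n) (μ : PMF (Perm (Fin n))) (f : Fin 2 ↪ Fin n) :
    ((μ.map (positions h)) f).toReal =
      J (Fin.castLE h 0) (Fin.castLE h 1) μ (f 0) (f 1) := by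
  classical
  rw [PMF.map_apply, tsum_fintype, ENNReal.toReal_sum]
  · simp only [J, of_apply]
    refine Finset.sum_congr rfl fun π _ => ?_
    have : (f = positions h π) ↔ (π (Fin.castLE h 0) = f 0 ∧ π (Fin.castLE h 1) = f 1) := by
      constructor
      · rintro rfl
        exact ⟨rfl, rfl⟩
      · rintro ⟨h1, h2⟩
        ext k
        fin_cases k
        · simpa [positions] using (congrArg Fin.val h1).symm
        · simpa [positions] using (congrArg Fin.val h2).symm
    simp only [this]
    split_ifs <;> simp
  · intro π _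
    split_ifs
    · exact PMF.apply_ne_top _ _
    · simp

/-- the embedding of `Fin 2` with given distinct values -/
def pairEmb {x y : Fin n} (hxy : x ≠ y) : Fin 2 ↪ Fin n :=
  ⟨![x, y], by
    intro a b hab
    fin_cases a <;> fin_cases b <;> simp_all [hxy.symm]⟩

theorem card_eq (h : 2 ≤ n) : ((Nat.factorial 2 * n.choose 2 : ℕ) : ℝ) = n * (n - 1) := by
  rw [← Nat.descFactorial_eq_factorial_mul_choose]
  obtain ⟨m, rfl⟩ : ∃ m, n = m + 2 := ⟨n - 2, by omega⟩
  simp [Nat.descFactorial]
  ring

theorem isShuffle_iff (h : 2 ≤ n) (L : List (LazyTransposition n)) :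
    IsShuffle h L ↔ ∀ x y : Fin n, x ≠ y →
      J (Fin.castLE h 0) (Fin.castLE h 1) (L.foldl stepLaw (PMF.pure 1)) x y
        = 1 / ((n : ℝ) * (n - 1)) := by
  constructor
  · intro hL x y hxy
    have h1 := hL (pairEmb hxy)
    have h2 := congrArg ENNReal.toReal h1
    rw [map_positions_toReal] at h2
    rw [ENNReal.toReal_inv, ENNReal.toReal_natCast, card_eq h] at h2
    rw [one_div, ← h2, compositionLaw_eq]
    rfl
  · intro hJ f
    have hne : f 0 ≠ f 1 := fun he => by simpa using f.injective he
    have h1 := hJ (f 0) (f 1) hne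
    rw [← ENNReal.toReal_eq_toReal_iff' (PMF.apply_ne_top _ _)
      (by
        rw [ENNReal.inv_ne_top]
        have : 0 < n.choose 2 := Nat.choose_pos h
        exact_mod_cast (Nat.mul_pos (Nat.factorial_pos 2) this).ne')]
    rw [map_positions_toReal, ENNReal.toReal_inv, ENNReal.toReal_natCast, card_eq h,
      compositionLaw_eq, h1, one_div]

/-! ### Lower bound -/

theorem lower (h : 2 ≤ n) (L : List (LazyTransposition n)) (hL : IsShuffle h L) :
    2 * n - 3 ≤ L.length := by
  classical
  rw [isShuffle_iff] at hL
  have hij : (Fin.castLE h 0 : Fin n) ≠ Fin.castLE h 1 := by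
    intro he
    simpa using congrArg Fin.val he
  have hpot := potential_foldl hij L (PMF.pure 1)
  rw [cov_pure] at hpot
  have hsup := sup_pure (Fin.castLE h 0 : Fin n) (Fin.castLE h 1)
  set M := J (Fin.castLE h 0 : Fin n) (Fin.castLE h 1) (L.foldl stepLaw (PMF.pure 1)) with hM
  have hn : (2 : ℝ) ≤ n := by exact_mod_cast h
  have hn0 : (n : ℝ) ≠ 0 := by positivity
  have hn1 : (n : ℝ) - 1 ≠ 0 := by linarith
  have hMxy : ∀ x y, M x y = if x = y then 0 else 1 / ((n : ℝ) * (n - 1)) := by
    intro x y
    split_ifs with hxy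
    · subst hxy
      exact J_diag hij _ _
    · exact hL x y hxy
  have hcount : ∀ x : Fin n, ((Finset.univ.filter fun y => ¬ (x = y)).card : ℝ) = n - 1 := by
    intro x
    have : (Finset.univ.filter fun y => ¬ (x = y)) = Finset.univ.erase x := by
      ext y; simp [eq_comm]
    rw [this, Finset.card_erase_of_mem (Finset.mem_univ _), Finset.card_univ, Fintype.card_fin]
    rw [Nat.cast_sub (by omega)]
    simp
  have hrs : ∀ x, rs M x = 1 / n := by
    intro x
    simp only [rs, hMxy, Finset.sum_ite, Finset.sum_const_zero, zero_add, Finset.sum_const,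
      nsmul_eq_mul, hcount]
    field_simp
  have hcs : ∀ x, cs M x = 1 / n := by
    intro x
    have : ∀ y, M y x = if x = y then 0 else 1 / ((n : ℝ) * (n - 1)) := by
      intro y; rw [hMxy]; simp only [eq_comm]
    simp only [cs, this, Finset.sum_ite, Finset.sum_const_zero, zero_add, Finset.sum_const,
      nsmul_eq_mul, hcount]
    field_simp
  have hsupM : (sup M).card = n := by
    have : sup M = Finset.univ := by
      ext x
      simp [sup, hrs, hn0]
    rw [this]
    simp
  have hcov : (1 : Matrix (Fin n) (Fin n) ℝ) =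
      (((n : ℝ) * (n - 1)) • (1 : Matrix (Fin n) (Fin n) ℝ)) * cov M
        + vecMulVec (fun _ => (1 / n : ℝ)) (fun _ => (1 : ℝ)) := by
    ext x y
    rw [Matrix.add_apply, Matrix.smul_mul, Matrix.one_mul, Matrix.smul_apply, vecMulVec_apply]
    simp only [cov, of_apply, hrs, hcs, hMxy, Matrix.one_apply, smul_eq_mul]
    split_ifs
    · field_simp; ring
    · field_simp; ring
  have hrank : n ≤ (cov M).rank + 1 := by
    have h1 : (1 : Matrix (Fin n) (Fin n) ℝ).rank = n := by simp
    calc n = (1 : Matrix (Fin n) (Fin n) ℝ).rank := h1.symm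
      _ = ((((n : ℝ) * (n - 1)) • (1 : Matrix (Fin n) (Fin n) ℝ)) * cov M
        + vecMulVec (fun _ => (1 / n : ℝ)) (fun _ => (1 : ℝ))).rank := by rw [← hcov]
      _ ≤ _ := rank_add_le' _ _
      _ ≤ _ := Nat.add_le_add (Matrix.rank_mul_le_right _ _) (Matrix.rank_vecMulVec_le _ _)
  have hz : (0 : Matrix (Fin n) (Fin n) ℝ).rank = 0 := Matrix.rank_zero
  omega

/-! ### Upper bound -/

/-- the law of one sweeping counter -/
noncomputable def cvec (n : ℕ) (j : ℕ) (x : ℕ) : ℝ :=
  if x < j then 1 / n else if x = j then (n - j) / n else 0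

/-- the lazy transposition `(j, j+1, (n-1-j)/(n-j))` -/
noncomputable def sweepStep (n j : ℕ) (hj : j + 1 < n) : LazyTransposition n where
  a := ⟨j, by omega⟩
  b := ⟨j + 1, hj⟩
  ne := by simp
  p := ((n - 1 - j : ℕ) : ℝ≥0) / ((n - j : ℕ) : ℝ≥0)
  le_one := by
    apply div_le_one_of_le₀
    · exact_mod_cast (by omega : n - 1 - j ≤ n - j)
    · positivity

theorem sweepStep_p (n j : ℕ) (hj : j + 1 < n) :
    ((sweepStep n j hj).p : ℝ) = ((n : ℝ) - 1 - j) / (n - j) := by
  simp only [sweepStep, NNReal.coe_div, NNReal.coe_natCast]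
  rw [Nat.cast_sub (by omega), Nat.cast_sub (by omega), Nat.cast_sub (by omega)]
  simp

theorem cvec_step (n j : ℕ) (hj : j + 1 < n) (x : Fin n) :
    ((sweepStep n j hj).p : ℝ) * cvec n j
        (swap (sweepStep n j hj).a (sweepStep n j hj).b x).val
      + (1 - ((sweepStep n j hj).p : ℝ)) * cvec n j x.val = cvec n (j + 1) x.val := by
  rw [sweepStep_p]
  have hnj : (n : ℝ) - j ≠ 0 := by
    have : ((j + 1 : ℕ) : ℝ) < n := by exact_mod_cast hj
    push_cast at this
    linarith
  have hn : (n : ℝ) ≠ 0 := by
    have : (0 : ℝ) < n := by exact_mod_cast (by omega : 0 < n)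
    exact this.ne'
  by_cases hxa : x = (sweepStep n j hj).a
  · subst hxa
    rw [swap_apply_left]
    simp only [sweepStep, cvec]
    simp
    field_simp
    ring
  · by_cases hxb : x = (sweepStep n j hj).b
    · subst hxb
      rw [swap_apply_right]
      simp only [sweepStep, cvec]
      simp
      field_simp
      ring
    · rw [swap_apply_of_ne_of_ne hxa hxb]
      have h1 : x.val ≠ j := fun h => hxa (Fin.ext h)
      have h2 : x.val ≠ j + 1 := fun h => hxb (Fin.ext h)
      have e : ∀ s t : ℝ, s * t + (1 - s) * t = t := by intro s t; ring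
      rw [e]
      simp only [cvec, h1, h2, if_false]
      by_cases h3 : x.val < j
      · simp [h3, Nat.lt_succ_of_lt h3]
      · have h4 : ¬ x.val < j + 1 := by omega
        simp [h3, h4]

theorem sweep_second (i₀ i₁ : Fin n) (k : ℕ) :
    ∀ (j : ℕ) (_ : j + k < n) (μ : PMF (Perm (Fin n)))
      (_ : ∀ x y, J i₀ i₁ μ x y = if x = y then 0 else cvec n j x.val / (n - 1)),
      ∃ L : List (LazyTransposition n), L.length = k ∧
        ∀ x y, J i₀ i₁ (L.foldl stepLaw μ) x y =
          if x = y then 0 else cvec n (j + k) x.val / (n - 1) := by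
  induction k with
  | zero =>
    intro j _ μ hμ
    exact ⟨[], rfl, hμ⟩
  | succ k ih =>
    intro j hj μ hμ
    have hj' : j + 1 < n := by omega
    obtain ⟨L, hL, hJ⟩ := ih (j + 1) (by omega) (stepLaw μ (sweepStep n j hj')) (by
      intro x y
      rw [J_step, hμ, hμ, ← cvec_step n j hj' x]
      by_cases hxy : x = y
      · simp [hxy]
      · have hne : swap (sweepStep n j hj').a (sweepStep n j hj').b x ≠
          swap (sweepStep n j hj').a (sweepStep n j hj').b y := fun h =>
            hxy ((Equiv.swap _ _).injective h)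
        rw [if_neg hne, if_neg hxy, if_neg hxy]
        ring)
    refine ⟨sweepStep n j hj' :: L, by simp [hL], ?_⟩
    intro x y
    rw [List.foldl_cons, hJ]
    have : j + 1 + k = j + (k + 1) := by omega
    rw [this]

/-- the law of the counter moved by the first sweep -/
noncomputable def dvec (n : ℕ) (j : ℕ) (x : ℕ) : ℝ :=
  if x = 0 then 0 else if x < j then 1 / (n - 1) else if x = j then (n - j) / (n - 1) else 0

theorem dvec_step (n j : ℕ) (hj0 : 1 ≤ j) (hj : j + 1 < n) (x : Fin n) :
    ((sweepStep n j hj).p : ℝ) * dvec n j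
        (swap (sweepStep n j hj).a (sweepStep n j hj).b x).val
      + (1 - ((sweepStep n j hj).p : ℝ)) * dvec n j x.val = dvec n (j + 1) x.val := by
  rw [sweepStep_p]
  have hnj : (n : ℝ) - j ≠ 0 := by
    have : ((j + 1 : ℕ) : ℝ) < n := by exact_mod_cast hj
    push_cast at this
    linarith
  have hn : (n : ℝ) - 1 ≠ 0 := by
    have : (1 : ℝ) < n := by exact_mod_cast (by omega : 1 < n)
    linarith
  have hj00 : j ≠ 0 := by omega
  by_cases hxa : x = (sweepStep n j hj).a
  · subst hxa
    rw [swap_apply_left]
    simp only [sweepStep, dvec]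
    simp [hj00]
    field_simp
    ring
  · by_cases hxb : x = (sweepStep n j hj).b
    · subst hxb
      rw [swap_apply_right]
      simp only [sweepStep, dvec]
      simp [hj00]
      field_simp
      ring
    · rw [swap_apply_of_ne_of_ne hxa hxb]
      have h1 : x.val ≠ j := fun h => hxa (Fin.ext h)
      have h2 : x.val ≠ j + 1 := fun h => hxb (Fin.ext h)
      have e : ∀ s t : ℝ, s * t + (1 - s) * t = t := by intro s t; ring
      rw [e]
      simp only [dvec, h1, h2, if_false]
      by_cases h3 : x.val < j
      · simp [h3, Nat.lt_succ_of_lt h3]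
      · have h4 : ¬ x.val < j + 1 := by omega
        simp [h3, h4]

theorem sweep_first (i₀ i₁ : Fin n) (k : ℕ) :
    ∀ (j : ℕ) (_ : 1 ≤ j) (_ : j + k < n) (μ : PMF (Perm (Fin n)))
      (_ : ∀ x y, J i₀ i₁ μ x y = if x.val = 0 then dvec n j y.val else 0),
      ∃ L : List (LazyTransposition n), L.length = k ∧
        ∀ x y, J i₀ i₁ (L.foldl stepLaw μ) x y =
          if x.val = 0 then dvec n (j + k) y.val else 0 := by
  induction k with
  | zero =>
    intro j _ _ μ hμ
    exact ⟨[], rfl, hμ⟩
  | succ k ih =>
    intro j hj1 hj μ hμ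
    have hj' : j + 1 < n := by omega
    obtain ⟨L, hL, hJ⟩ := ih (j + 1) (by omega) (by omega)
      (stepLaw μ (sweepStep n j hj')) (by
      intro x y
      rw [J_step, hμ, hμ, ← dvec_step n j hj1 hj' y]
      have hz : (swap (sweepStep n j hj').a (sweepStep n j hj').b x).val = 0 ↔ x.val = 0 := by
        by_cases hxa : x = (sweepStep n j hj').a
        · subst hxa
          rw [swap_apply_left]
          simp only [sweepStep]
          omega
        · by_cases hxb : x = (sweepStep n j hj').b
          · subst hxb
            rw [swap_apply_right]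
            simp only [sweepStep]
            omega
          · rw [swap_apply_of_ne_of_ne hxa hxb]
      simp only [hz]
      split_ifs
      · rfl
      · simp)
    refine ⟨sweepStep n j hj' :: L, by simp [hL], ?_⟩
    intro x y
    rw [List.foldl_cons, hJ]
    have : j + 1 + k = j + (k + 1) := by omega
    rw [this]

theorem upper (h : 2 ≤ n) :
    ∃ L : List (LazyTransposition n), L.length = 2 * n - 3 ∧ IsShuffle h L := by
  have hn1 : (n : ℝ) - 1 ≠ 0 := by
    have : (1 : ℝ) < n := by exact_mod_cast (by omega : 1 < n)
    linarith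
  have hn0 : (n : ℝ) ≠ 0 := by
    have : (0 : ℝ) < n := by exact_mod_cast (by omega : 0 < n)
    exact this.ne'
  obtain ⟨L₁, hL₁, hJ₁⟩ := sweep_first (Fin.castLE h 0) (Fin.castLE h 1) (n - 2) 1 le_rfl
    (by omega) (PMF.pure 1) (by
      intro x y
      rw [J_pure]
      simp only [dvec, Fin.ext_iff, Fin.val_castLE, Fin.val_zero, Fin.val_one, Nat.cast_one,
        Nat.lt_one_iff]
      by_cases hx : x.val = 0 <;> by_cases hy : y.val = 0 <;> by_cases hy1 : y.val = 1 <;>
        simp_all)
  obtain ⟨L₂, hL₂, hJ₂⟩ := sweep_second (Fin.castLE h 0) (Fin.castLE h 1) (n - 1) 0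
    (by omega) (L₁.foldl stepLaw (PMF.pure 1)) (by
      intro x y
      rw [hJ₁]
      have e : 1 + (n - 2) = n - 1 := by omega
      rw [e]
      have hy : y.val < n := y.isLt
      by_cases hx : x.val = 0
      · by_cases hxy : x = y
        · subst hxy
          simp [hx, dvec]
        · have hy0 : y.val ≠ 0 := fun h => hxy (Fin.ext (hx.trans h.symm))
          rw [if_pos hx, if_neg hxy]
          simp only [cvec, dvec, hx, hy0, if_false]
          by_cases hlt : y.val < n - 1
          · simp [hlt, hn0]
          · have : y.val = n - 1 := by omega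
            simp only [this, lt_irrefl, if_false, if_true]
            rw [Nat.cast_sub (by omega)]
            simp [hn0]
      · by_cases hxy : x = y
        · rw [if_neg hx, if_pos hxy]
        · rw [if_neg hx, if_neg hxy]
          simp [cvec, hx])
  refine ⟨L₁ ++ L₂, by simp [hL₁, hL₂]; omega, ?_⟩
  rw [isShuffle_iff]
  intro x y hxy
  rw [List.foldl_append, hJ₂, if_neg hxy]
  have hx : x.val < n := x.isLt
  have e : 0 + (n - 1) = n - 1 := by omega
  rw [e]
  simp only [cvec]
  by_cases hlt : x.val < n - 1
  · simp only [hlt, if_true]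
    field_simp
  · have : x.val = n - 1 := by omega
    simp only [this, lt_irrefl, if_false, if_true]
    rw [Nat.cast_sub (by omega)]
    field_simp
    simp

/-- **`U_2(n) = 2 n - 3` for every `n ≥ 2`**: the least length of a `(2, n)`-shuffle is
`2 n - 3`. -/
theorem result (n : ℕ) (hn : 2 ≤ n) : IsLeast (shuffleLengths hn) (2 * n - 3) := by
  refine ⟨upper hn, ?_⟩
  rintro l ⟨L, rfl, hL⟩
  exact lower hn L hL

end Pool.Agent.Results.MP_3359ff_co.ExactTwo
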